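import Pool.Agent.K1H42.HP.Stm

/-!
# The `k`-subspaces of a hyperplane in a space of dimension `2k` (piece HP-N)
-/

namespace Pool.Agent.K1H61.HP

open Module Finset Pool.Agent.K1H42.HP

/-- comparison of the two degrees -/
lemma D_hyp (q k : ℕ) (hq : 2 ≤ q) (hk : 3 ≤ k) : D q (2 * k) k 2 < D q (2 * k - 1) k 1 := by
  have hq1 : (1 : ℝ) < q := by exact_mod_cast hq
  have hq0 : (0 : ℝ) < q := by linarith
  unfold D
  rw [Finset.prod_div_distrib, Finset.prod_div_distrib]
  have hden : ∀ i ∈ Finset.Ico 2 k, (0 : ℝ) < (q : ℝ) ^ k - (q : ℝ) ^ i := by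
    intro i hi
    rw [Finset.mem_Ico] at hi
    exact sub_pos.2 (pow_lt_pow_right₀ hq1 hi.2)
  set E : ℝ := ∏ i ∈ Finset.Ico 2 k, ((q : ℝ) ^ k - (q : ℝ) ^ i) with hE
  have hE0 : 0 < E := Finset.prod_pos hden
  set N : ℝ := ∏ i ∈ Finset.Ico 1 (k - 1), ((q : ℝ) ^ (2 * k - 1) - (q : ℝ) ^ i) with hN
  have hN0 : 0 < N := by
    apply Finset.prod_pos
    intro i hi
    rw [Finset.mem_Ico] at hi
    exact sub_pos.2 (pow_lt_pow_right₀ hq1 (by omega))
  have h1 : ∏ i ∈ Finset.Ico 1 k, ((q : ℝ) ^ k - (q : ℝ) ^ i) = ((q : ℝ) ^ k - q) * E := by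
    rw [Finset.prod_eq_prod_Ico_succ_bot (by omega : 1 < k)]
    simp [hE]
  have h2 : ∏ i ∈ Finset.Ico 1 k, ((q : ℝ) ^ (2 * k - 1) - (q : ℝ) ^ i)
      = N * ((q : ℝ) ^ (2 * k - 1) - (q : ℝ) ^ (k - 1)) := by
    have : k = (k - 1) + 1 := by omega
    conv_lhs => rw [this]
    rw [Finset.prod_Ico_succ_top (by omega : 1 ≤ k - 1)]
    rw [show k - 1 + 1 = k by omega]
  have h3 : ∏ i ∈ Finset.Ico 2 k, ((q : ℝ) ^ (2 * k) - (q : ℝ) ^ i) = (q : ℝ) ^ (k - 2) * N := by
    have e : Finset.Ico 2 k = Finset.Ico (1 + 1) ((k - 1) + 1) := by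
      rw [show k - 1 + 1 = k by omega]
    rw [e, ← Finset.prod_Ico_add' (fun i => ((q : ℝ) ^ (2 * k) - (q : ℝ) ^ i)) 1 (k - 1) 1]
    have : ∀ i ∈ Finset.Ico 1 (k - 1), ((q : ℝ) ^ (2 * k) - (q : ℝ) ^ (i + 1))
        = (q : ℝ) * ((q : ℝ) ^ (2 * k - 1) - (q : ℝ) ^ i) := by
      intro i _
      rw [mul_sub, ← pow_succ', ← pow_succ', show 2 * k - 1 + 1 = 2 * k by omega]
    rw [Finset.prod_congr rfl this, Finset.prod_mul_distrib, Finset.prod_const, Nat.card_Ico,
      show k - 1 - 1 = k - 2 by omega]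
  rw [h1, h2, h3]
  have hkq : (0 : ℝ) < (q : ℝ) ^ k - q := by
    have := pow_lt_pow_right₀ hq1 (show 1 < k by omega)
    rw [pow_one] at this
    linarith
  rw [div_lt_div_iff₀ hE0 (mul_pos hkq hE0)]
  have h4 : (q : ℝ) ^ (k - 2) * ((q : ℝ) ^ k - q) < (q : ℝ) ^ (2 * k - 1) - (q : ℝ) ^ (k - 1) := by
    have e1 : (q : ℝ) ^ (2 * k - 1) = (q : ℝ) ^ (k - 2) * ((q : ℝ) * (q : ℝ) ^ k) := by
      rw [← pow_succ', ← pow_add, show k - 2 + (k + 1) = 2 * k - 1 by omega]
    have e2 : (q : ℝ) ^ (k - 1) = (q : ℝ) ^ (k - 2) * q := by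
      rw [← pow_succ, show k - 2 + 1 = k - 1 by omega]
    rw [e1, e2, ← mul_sub]
    apply mul_lt_mul_of_pos_left _ (by positivity)
    have : (0 : ℝ) < (q : ℝ) ^ k := by positivity
    nlinarith
  have hp : 0 < N * E := mul_pos hN0 hE0
  nlinarith [mul_lt_mul_of_pos_left h4 hp]

section
variable {F V : Type} [Field F] [AddCommGroup V] [Module F V] [Finite V]

lemma exists_hyp (n : ℕ) (hn : finrank F V = n + 1) : ∃ H : Submodule F V, finrank F H = n := by
  haveI : FiniteDimensional F V := Module.finite_of_finrank_pos (by omega)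
  let b := Module.finBasisOfFinrankEq F V hn
  have hf : b.coord 0 ≠ 0 := by
    intro h
    have := congrArg (fun f => f (b 0)) h
    simp at this
  refine ⟨LinearMap.ker (b.coord 0), ?_⟩
  have := Module.Dual.finrank_ker_add_one_of_ne_zero hf
  omega

open Classical in
lemma dg_below [Fintype F] (hC : S_COUNT) {q m k : ℕ} (hq : Fintype.card F = q)
    (H P : Submodule F V) (hH : finrank F H = m) (hk : k ≤ m) (h1 : 1 ≤ k)
    (hP : finrank F P = 1) (hPH : P ≤ H) :
    dg ((Gr F V k).filter (fun A => A ≤ H)) P = D q m k 1 := by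
  have hcomap : finrank F (P.comap H.subtype) = 1 := by
    rw [← hP]
    exact LinearEquiv.finrank_eq (Submodule.comapSubtypeEquivOfLe hPH)
  have h := hC F H q m k hq hH hk (P.comap H.subtype) (by omega)
  rw [hcomap] at h
  rw [← h]
  unfold dg
  congr 1
  refine Finset.card_nbij' (fun A => A.comap H.subtype) (fun B => B.map H.subtype) ?_ ?_ ?_ ?_
  · intro A hA
    simp only [mem_above, mem_filter, mem_Gr, 
      Finset.mem_coe] at hA ⊢
    refine ⟨?_, Submodule.comap_mono hA.2⟩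
    rw [← hA.1.1]
    exact LinearEquiv.finrank_eq (Submodule.comapSubtypeEquivOfLe hA.1.2)
  · intro B hB
    simp only [mem_above, mem_filter, mem_Gr, Finset.mem_coe] at hB ⊢
    refine ⟨⟨?_, ?_⟩, ?_⟩
    · rw [← hB.1]
      exact Submodule.finrank_map_subtype_eq H B
    · exact Submodule.map_subtype_le H B
    · have := Submodule.map_mono (f := H.subtype) hB.2
      rwa [Submodule.map_comap_subtype, inf_eq_right.2 hPH] at this
  · intro A hA
    simp only [mem_above, mem_filter, mem_Gr, Finset.mem_coe] at hA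
    simp only
    rw [Submodule.map_comap_subtype, inf_eq_right.2 hA.1.2]
  · intro B hB
    simp only
    exact Submodule.comap_map_eq_of_injective H.injective_subtype B

end

/-- for `n = 2k` the `k`-subspaces of a hyperplane have more than `[k+1]` high points -/
theorem t_HYP (hC : S_COUNT) (hPT : S_PTS) : S_HYP := by
  classical
  intro F _ _ V _ _ _ q k hq hn hk
  obtain ⟨H, hH⟩ := exists_hyp (F := F) (V := V) (2 * k - 1) (by omega)
  refine ⟨(Gr F V k).filter (fun A => A ≤ H), Finset.filter_subset _ _, ?_, ?_⟩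
  · intro A hA B hB h
    simp only [mem_filter, mem_Gr] at hA hB
    have h1 := Submodule.finrank_sup_add_finrank_inf_eq A B
    rw [h, finrank_bot] at h1
    have h2 := Submodule.finrank_mono (sup_le hA.2 hB.2)
    omega
  · have hq2 : 2 ≤ q := by
      have := Fintype.one_lt_card (α := F)
      omega
    have hsub : pts H ⊆ high q (2 * k) k ((Gr F V k).filter (fun A => A ≤ H)) := by
      intro P hP
      rw [mem_pts] at hP
      rw [mem_high]
      refine ⟨hP.1, ?_⟩
      rw [dg_below hC hq H P hH (by omega) (by omega) hP.1 hP.2]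
      exact D_hyp q k hq2 (by omega)
    have hc : ((pts H).card : ℝ)
        ≤ ((high q (2 * k) k ((Gr F V k).filter (fun A => A ≤ H))).card : ℝ) := by
      exact_mod_cast Finset.card_le_card hsub
    rw [hPT F V q hq H, hH] at hc
    refine lt_of_lt_of_le ?_ hc
    unfold br
    apply Finset.sum_lt_sum_of_subset (i := k + 1)
    · exact Finset.range_mono (by omega)
    · rw [Finset.mem_range]; omega
    · rw [Finset.mem_range]; omega
    · have : (0 : ℝ) < q := by exact_mod_cast (show 0 < q by omega)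
      positivity
    · intro j _ _
      positivity

end Pool.Agent.K1H61.HP
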