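import Pool.Agent.K1H42.HP.Stm

/-!
# The tuple lemma (piece HP-C)
-/

namespace Pool.Agent.K1H61.HP

open Module Finset Pool.Agent.K1H42.HP

section
variable {F V : Type} [Field F] [AddCommGroup V] [Module F V] [Finite V]

open Classical in
/-- weighted number of `j`-tuples of points of `A`, independent modulo `S` -/
noncomputable def U (v : Submodule F V → ℝ) : ℕ → Submodule F V → Submodule F V → ℝ
  | 0, _, _ => 1
  | j + 1, S, A => ∑ P ∈ (pts A).filter (fun P => ¬ P ≤ S), v P * U v j (S ⊔ P) A

lemma finrank_sup_pt (S P : Submodule F V) (hP : finrank F P = 1) (hS : ¬ P ≤ S) :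
    finrank F (S ⊔ P : Submodule F V) = finrank F S + 1 := by
  have h := Submodule.finrank_sup_add_finrank_inf_eq S P
  have hlt : S ⊓ P < P := lt_of_le_of_ne inf_le_right (fun h => hS (by
    rw [← h]; exact inf_le_left))
  have := Submodule.finrank_lt_finrank_of_lt hlt
  omega

lemma U_nonneg (v : Submodule F V → ℝ) (hv : ∀ P, 0 ≤ v P) (j : ℕ) (S A : Submodule F V) :
    0 ≤ U v j S A := by
  induction j generalizing S with
  | zero => simp [U]
  | succ j ih =>
    rw [U]
    exact Finset.sum_nonneg fun P _ => mul_nonneg (hv P) (ih _)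

open Classical in
lemma U_sum [Fintype F] (hC : S_COUNT) {q n k : ℕ} (v : Submodule F V → ℝ)
    (hq : Fintype.card F = q) (hn : finrank F V = n) (hk : k ≤ n) (hv : ∀ P, 0 ≤ v P)
    (j : ℕ) (S : Submodule F V) (hS : finrank F S + j ≤ k) :
    ∑ A ∈ (Gr F V k).filter (fun A => S ≤ A), U v j S A
      ≤ (∑ P ∈ Gr F V 1, v P) ^ j * D q n k (finrank F S + j) := by
  induction j generalizing S with
  | zero =>
    have h := hC F V q n k hq hn hk S (by omega)
    simp only [U, sum_const, nsmul_eq_mul, mul_one, pow_zero, one_mul, add_zero]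
    rw [← h]
    apply le_of_eq
    unfold dg above
    rfl
  | succ j ih =>
    have hswap : ∑ A ∈ (Gr F V k).filter (fun A => S ≤ A), U v (j + 1) S A
        = ∑ P ∈ (Gr F V 1).filter (fun P => ¬ P ≤ S),
            v P * ∑ A ∈ (Gr F V k).filter (fun A => S ⊔ P ≤ A), U v j (S ⊔ P) A := by
      simp only [U, Finset.mul_sum]
      apply Finset.sum_comm'
      intro A P
      simp only [mem_filter, mem_Gr, mem_pts, sup_le_iff]
      tauto
    rw [hswap]
    have hD : 0 ≤ (∑ P ∈ Gr F V 1, v P) := Finset.sum_nonneg fun P _ => hv P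
    have h1 : ∑ P ∈ (Gr F V 1).filter (fun P => ¬ P ≤ S),
            v P * ∑ A ∈ (Gr F V k).filter (fun A => S ⊔ P ≤ A), U v j (S ⊔ P) A
        ≤ ∑ P ∈ (Gr F V 1).filter (fun P => ¬ P ≤ S),
            v P * ((∑ P ∈ Gr F V 1, v P) ^ j * D q n k (finrank F S + (j + 1))) := by
      apply Finset.sum_le_sum
      intro P hP
      simp only [mem_filter, mem_Gr] at hP
      have hr := finrank_sup_pt S P hP.1 hP.2
      have := ih (S ⊔ P) (by omega)
      rw [hr, show finrank F S + 1 + j = finrank F S + (j + 1) by ring] at this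
      exact mul_le_mul_of_nonneg_left this (hv P)
    have h0 : 0 ≤ D q n k (finrank F S + (j + 1)) := by
      have hq1 : (1 : ℝ) ≤ q := by
        have : 0 < Fintype.card F := Fintype.card_pos
        exact_mod_cast (show 1 ≤ q by omega)
      unfold D
      apply Finset.prod_nonneg
      intro i hi
      rw [Finset.mem_Ico] at hi
      apply div_nonneg
      · exact sub_nonneg.2 (pow_le_pow_right₀ hq1 (by omega))
      · exact sub_nonneg.2 (pow_le_pow_right₀ hq1 (by omega))
    refine h1.trans ?_
    rw [← Finset.sum_mul, pow_succ', mul_assoc]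
    apply mul_le_mul_of_nonneg_right _ (by positivity)
    exact Finset.sum_le_sum_of_subset_of_nonneg (Finset.filter_subset _ _) fun P _ _ => hv P

lemma br_mono (q : ℕ) {s t : ℕ} (h : s ≤ t) : br q s ≤ br q t := by
  unfold br
  exact Finset.sum_le_sum_of_subset_of_nonneg (Finset.range_mono h) fun i _ _ => by positivity

open Classical in
lemma U_lower [Fintype F] (hPT : S_PTS) {q t : ℕ} (v : Submodule F V → ℝ) {m a : ℝ}
    (hq : Fintype.card F = q) (hv : ∀ P, 0 ≤ v P) (hm : ∀ P, v P ≤ m) (ha : 0 < a)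
    (h2 : 2 * br q t * m ≤ a) (A : Submodule F V) (hA : a ≤ ∑ P ∈ pts A, v P)
    (j : ℕ) (S : Submodule F V) (hS : finrank F S + j ≤ t + 1) :
    (a / 2) ^ j ≤ U v j S A := by
  have hm0 : 0 ≤ m := (hv ⊥).trans (hm ⊥)
  induction j generalizing S with
  | zero => simp [U]
  | succ j ih =>
    have hsum : a / 2 ≤ ∑ P ∈ (pts A).filter (fun P => ¬ P ≤ S), v P := by
      have hsplit := Finset.sum_filter_add_sum_filter_not (pts A) (fun P => P ≤ S) v
      have hle : ∑ P ∈ (pts A).filter (fun P => P ≤ S), v P ≤ br q t * m := by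
        calc ∑ P ∈ (pts A).filter (fun P => P ≤ S), v P
            ≤ ∑ P ∈ (pts A).filter (fun P => P ≤ S), m := Finset.sum_le_sum fun P _ => hm P
          _ = (((pts A).filter (fun P => P ≤ S)).card : ℝ) * m := by simp
          _ ≤ ((pts S).card : ℝ) * m := by
              apply mul_le_mul_of_nonneg_right _ hm0
              exact_mod_cast Finset.card_le_card (fun P hP => by
                simp only [mem_filter, mem_pts] at hP ⊢
                exact ⟨hP.1.1, hP.2⟩)
          _ = br q (finrank F S) * m := by rw [hPT F V q hq S]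
          _ ≤ br q t * m := mul_le_mul_of_nonneg_right (br_mono q (by omega)) hm0
      linarith
    rw [U]
    have h1 : ∑ P ∈ (pts A).filter (fun P => ¬ P ≤ S), v P * (a / 2) ^ j
        ≤ ∑ P ∈ (pts A).filter (fun P => ¬ P ≤ S), v P * U v j (S ⊔ P) A := by
      apply Finset.sum_le_sum
      intro P hP
      simp only [mem_filter, mem_pts] at hP
      have hr := finrank_sup_pt S P hP.1.1 hP.2
      exact mul_le_mul_of_nonneg_left (ih (S ⊔ P) (by omega)) (hv P)
    refine le_trans ?_ h1
    rw [← Finset.sum_mul, pow_succ']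
    exact mul_le_mul_of_nonneg_right hsum (by positivity)

end

/-- the tuple lemma -/
theorem t_TUP (hC : S_COUNT) (hPT : S_PTS) : S_TUP := by
  classical
  intro F _ _ V _ _ _ q n k t v m a hq hn hk ht hv hm ha h2 𝓑 h𝓑 hB
  have hU := U_sum hC v hq hn hk hv (t + 1) ⊥ (by simp; omega)
  simp only [finrank_bot, zero_add] at hU
  refine le_trans ?_ hU
  have hfil : (Gr F V k).filter (fun A => (⊥ : Submodule F V) ≤ A) = Gr F V k := by
    simp
  rw [hfil, Finset.mul_sum]
  refine le_trans ?_ (Finset.sum_le_sum_of_subset_of_nonneg h𝓑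
    fun A _ _ => U_nonneg v hv (t + 1) ⊥ A)
  apply Finset.sum_le_sum
  intro A hA
  have hbot : (pts A).filter (fun P => ¬ P ≤ (⊥ : Submodule F V)) = pts A := by
    apply Finset.filter_true_of_mem
    intro P hP
    simp only [mem_pts] at hP
    intro h
    rw [le_bot_iff] at h
    rw [h] at hP
    simp at hP
  rw [U, hbot, Finset.mul_sum]
  apply Finset.sum_le_sum
  intro P hP
  simp only [mem_pts] at hP
  rw [mul_comm]
  apply mul_le_mul_of_nonneg_left _ (hv P)
  apply U_lower hPT v hq hv hm ha h2 A (hB A hA)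
  rw [bot_sup_eq, hP.1]
  omega

end Pool.Agent.K1H61.HP
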